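import Pool.Agent.H.MP_034cab_an.A

set_option autoImplicit false
set_option maxHeartbeats 400000

namespace Pool.Agent.H.MP_140d1b_an
open Finset Filter Topology Real MeasureTheory Metric Polynomial Pool.Agent.H.MP_f44585_an
  Pool.Agent.H.MP_0447a2_lc Pool.Agent.H.MP_034cab_an

def A (b r : ℝ) (γ : ℝ → ℂ) (W : ℝ → ℝ) : Prop :=
  ∀ P : ℂ[X], ∫ t in (0 : ℝ)..1, ‖P.eval (γ t)‖ ^ b * W t ≤ ∫ t in (0 : ℝ)..1, ‖P.eval (r * ee t)‖ ^ b

variable {b c r R : ℝ} {γ : ℝ → ℂ} {W : ℝ → ℝ} {h : ℂ → ℂ}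

lemma nr (r0 : 0 ≤ r) (t : ℝ) : ‖r * ee t‖ = r := by simp [ee_norm, r0]

lemma ext (b0 : 0 ≤ b) (r0 : 0 ≤ r) (hγ : Continuous γ) (hr : ∀ t, ‖γ t‖ ≤ r) (hW : Continuous W)
    (H : A b r γ W) (rR : r < R) (hh : DifferentiableOn ℂ h (ball 0 R)) :
    ∫ t in (0 : ℝ)..1, ‖h (γ t)‖ ^ b * W t ≤ ∫ t in (0 : ℝ)..1, ‖h (r * ee t)‖ ^ b := by
  let a : ℕ → ℂ := fun n => (n.factorial : ℂ)⁻¹ * iteratedDeriv n h 0
  have s : ∀ z : ℂ, ‖z‖ ≤ r → HasSum (fun n => a n * z ^ n) (h z) := fun z hz => by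
    refine (Complex.hasSum_taylorSeries_on_ball hh (mem_ball_zero_iff.2 (hz.trans_lt rR))).congr_fun ?_
    intro n; simp [a]; ring
  have s' := (s r (by simp [abs_of_nonneg r0])).summable.norm
  let P : ℕ → ℂ[X] := fun n => ∑ k ∈ range n, monomial k (a k)
  have lim : ∀ {γ : ℝ → ℂ} {W : ℝ → ℝ}, Continuous γ → (∀ t, ‖γ t‖ ≤ r) → Continuous W →
      Tendsto (fun n => ∫ t in (0 : ℝ)..1, ‖(P n).eval (γ t)‖ ^ b * W t) atTop
        (𝓝 (∫ t in (0 : ℝ)..1, ‖h (γ t)‖ ^ b * W t)) := fun {γ W} hγ hr hW => by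
    refine intervalIntegral.tendsto_integral_filter_of_dominated_convergence
      (fun t => (∑' n, ‖a n * r ^ n‖) ^ b * |W t|) (.of_forall fun n => Continuous.aestronglyMeasurable
        (((((P n).continuous.comp hγ).norm.rpow_const fun _ => .inr b0)).mul hW))
      (.of_forall fun n => .of_forall fun t _ => ?_) (Continuous.intervalIntegrable (by fun_prop) _ _)
      (.of_forall fun t _ => .mul_const _ (.rpow_const (.norm ?_) (.inr b0)))
    · rw [norm_mul, Real.norm_of_nonneg (by positivity), Real.norm_eq_abs]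
      gcongr
      simp only [P, eval_finsetSum, eval_monomial]
      refine (norm_sum_le_of_le _ fun k _ => ?_).trans (s'.sum_le_tsum _ fun _ _ => norm_nonneg _)
      simp only [norm_mul, norm_pow, Complex.norm_real, Real.norm_of_nonneg r0]
      gcongr; exact hr t
    · simpa only [P, eval_finsetSum, eval_monomial] using (s _ (hr t)).tendsto_sum_nat
  have c := ee_cont
  simpa using le_of_tendsto_of_tendsto' (lim hγ hr hW) (lim (γ := fun t => r * ee t) (W := 1)
    (by fun_prop) (fun t => (nr r0 t).le) continuous_const) fun n => by simpa using H (P n)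

def Mj (r : ℝ) (p : ℂ → ℂ) : Prop := ∃ U : ℝ → ℂ → ℂ, ∃ G : ℝ × ℂ → ℝ, Continuous G ∧
  (∀ z, ‖z‖ = r → G (1, z) = ‖p z‖) ∧ ∀ l > 1, AnalyticOnNhd ℂ (U l) (closedBall 0 r) ∧
    (∀ z, ‖z‖ ≤ r → ‖p z‖ ≤ exp (U l z).re) ∧ ∀ z, ‖z‖ = r → exp (U l z).re = G (l, z)

lemma alog {a : ℂ} (u : ℝ) (ha : ‖a‖ * r < 1) :
    AnalyticOnNhd ℂ (fun z => u + Complex.log (1 - a * z)) (closedBall 0 r) ∧
      ∀ z, ‖z‖ ≤ r → exp (u + Complex.log (1 - a * z)).re = exp u * ‖1 - a * z‖ := by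
  have s : ∀ z : ℂ, ‖z‖ ≤ r → 1 - a * z ∈ Complex.slitPlane := fun z hz => by
    rw [sub_eq_add_neg]
    refine Complex.mem_slitPlane_of_norm_lt_one (lt_of_le_of_lt ?_ ha)
    rw [norm_neg, norm_mul]; gcongr
  refine ⟨fun z hz => analyticAt_const.add (AnalyticAt.clog (by fun_prop)
    (s z (mem_closedBall_zero_iff.1 hz))), fun z hz => ?_⟩
  rw [Complex.add_re, exp_add, Complex.log_re, exp_log (norm_pos_iff.2 (Complex.slitPlane_ne_zero (s z hz)))]
  rfl

lemma maj (r0 : 0 < r) (P : ℂ[X]) : Mj r fun z => P.eval z := by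
  have mul : ∀ {p q : ℂ → ℂ}, Mj r p → Mj r q → Mj r fun z => p z * q z :=
    fun ⟨U, G, c, e, h⟩ ⟨U', G', c', e', h'⟩ => ⟨U + U', G * G', c.mul c',
      fun z hz => by simp [e z hz, e' z hz], fun l hl => ⟨(h l hl).1.add (h' l hl).1, fun z hz => by
        simp only [Pi.add_apply, Complex.add_re, exp_add, norm_mul]
        exact mul_le_mul ((h l hl).2.1 z hz) ((h' l hl).2.1 z hz) (norm_nonneg _) (exp_pos _).le,
      fun z hz => by simp [exp_add, (h l hl).2.2 z hz, (h' l hl).2.2 z hz]⟩⟩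
  have con : ∀ a : ℂ, Mj r fun _ => a := fun a => ⟨fun l _ => (log (‖a‖ + (l - 1)) : ℝ),
    fun x => ‖a‖ + (x.1 - 1), by fun_prop, by simp, fun l hl => by
      have : 0 < ‖a‖ + (l - 1) := by linarith [norm_nonneg a]
      refine ⟨analyticOnNhd_const, fun z _ => ?_, fun z _ => ?_⟩ <;>
        rw [Complex.ofReal_re, exp_log this]
      linarith⟩
  have lin : ∀ a : ℂ, Mj r fun z => z - a := fun a => by
    rcases lt_or_ge ‖a‖ r with c | c
    · obtain ⟨A1, A2⟩ := alog (r := r) (a := (starRingEnd ℂ) a / r ^ 2) (log r) (by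
        simp only [norm_div, Complex.norm_conj, norm_pow, Complex.norm_real, Real.norm_of_nonneg r0.le]
        rw [div_mul_eq_mul_div, div_lt_one (by positivity)]; nlinarith)
      have k : ∀ z : ℂ, (r * ‖1 - (starRingEnd ℂ) a / r ^ 2 * z‖) ^ 2 - ‖z - a‖ ^ 2 =
          (r ^ 2 - ‖a‖ ^ 2) * (r ^ 2 - ‖z‖ ^ 2) / r ^ 2 := fun z => by
        rw [show (starRingEnd ℂ) a / r ^ 2 * z = ((r ^ 2)⁻¹ : ℝ) * ((starRingEnd ℂ) a * z) by
          push_cast; ring]
        simp only [mul_pow, Complex.sq_norm, Complex.normSq_apply, Complex.sub_re, Complex.sub_im,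
          Complex.ofReal_re, Complex.ofReal_im, Complex.mul_re, Complex.mul_im, Complex.conj_re,
          Complex.conj_im, Complex.one_re, Complex.one_im]
        field_simp
        ring
      refine ⟨fun _ => _, fun x => ‖x.2 - a‖, by fun_prop, fun _ _ => rfl, fun l _ =>
        ⟨A1, fun z hz => ?_, fun z hz => ?_⟩⟩
      · rw [A2 z hz, exp_log r0]
        refine (abs_le_of_sq_le_sq' (sub_nonneg.1 (k z ▸ div_nonneg (mul_nonneg ?_ ?_) (by positivity)))
          (by positivity)).2 <;> nlinarith [norm_nonneg a, norm_nonneg z]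
      · rw [A2 z hz.le, exp_log r0, ← sq_eq_sq₀ (by positivity) (by positivity), ← sub_eq_zero, k, hz]
        simp
    have a0 : 0 < ‖a‖ := r0.trans_le c
    refine ⟨fun l z => (log (l * ‖a‖) : ℝ) + Complex.log (1 - (l * a)⁻¹ * z), fun x => ‖x.2 - x.1 * a‖,
      by fun_prop, by simp, fun l hl => ?_⟩
    have n : ‖l * a‖ = l * ‖a‖ := by simp [abs_of_pos (one_pos.trans hl)]
    have n0 : 0 < l * ‖a‖ := by nlinarith
    obtain ⟨A1, A2⟩ := alog (r := r) (a := (l * a)⁻¹) (log (l * ‖a‖)) (by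
      rw [norm_inv, n, inv_mul_lt_one₀ n0]; nlinarith)
    have e : ∀ z, ‖z‖ ≤ r → exp ((log (l * ‖a‖) : ℝ) + Complex.log (1 - (l * a)⁻¹ * z)).re =
        ‖z - l * a‖ := fun z hz => by
      rw [A2 z hz, exp_log n0, ← n, ← norm_mul, mul_sub, mul_inv_cancel_left₀ (norm_pos_iff.1 (n ▸ n0)),
        mul_one, norm_sub_rev]
    refine ⟨A1, fun z hz => ?_, fun z hz => e z hz.le⟩
    rw [e z hz]
    refine (abs_le_of_sq_le_sq' ?_ (norm_nonneg _)).2
    have i := Complex.re_le_norm (z * (starRingEnd ℂ) a)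
    have j : ‖z‖ * ‖a‖ ≤ ‖a‖ ^ 2 := by nlinarith
    rw [norm_mul, Complex.norm_conj] at i
    have i := i.trans j
    simp only [Complex.sq_norm, Complex.normSq_apply, Complex.sub_re, Complex.sub_im,
      Complex.ofReal_re, Complex.ofReal_im, Complex.mul_re, Complex.mul_im, Complex.conj_re,
      Complex.conj_im] at i ⊢
    nlinarith [mul_nonneg (sub_pos.2 hl).le (sub_nonneg.2 i), mul_nonneg (sq_nonneg (l - 1))
      (add_nonneg (mul_self_nonneg a.re) (mul_self_nonneg a.im))]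
  simp only [(IsAlgClosed.splits P).eval_eq_prod_roots]
  refine mul (con _) ?_
  induction P.roots using Multiset.induction_on with
  | empty => simpa using con 1
  | cons a s ih => simpa using mul (lin a) ih

lemma chg (b0 : 0 < b) (c0 : 0 < c) (r0 : 0 < r) (hγ : Continuous γ) (hr : ∀ t, ‖γ t‖ ≤ r)
    (hW : Continuous W) (W0 : ∀ t, 0 ≤ W t) (H : A b r γ W) : A c r γ W := fun P => by
  obtain ⟨U, G, cG, e, h⟩ := maj r0 P
  have ce := ee_cont
  have : Continuous fun l : ℝ => ∫ t in (0 : ℝ)..1, G (l, r * ee t) ^ c :=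
    intervalIntegral.continuous_parametric_intervalIntegral_of_continuous'
      (Continuous.rpow_const (by fun_prop) fun _ => .inr c0.le) _ _
  have l := (this.tendsto 1).mono_left (nhdsWithin_le_nhds (s := Set.Ioi 1))
  simp only [e _ (nr r0.le _)] at l
  refine ge_of_tendsto l (eventually_mem_nhdsWithin.mono fun l hl => ?_)
  obtain ⟨h1, h2, h3⟩ := h l hl
  obtain ⟨δ, δ0, hδ⟩ := (isCompact_closedBall (0 : ℂ) r).exists_cthickening_subset_open
    (isOpen_analyticAt ℂ (U l)) h1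
  rw [cthickening_closedBall δ0.le r0.le] at hδ
  have n : ∀ z, ‖Complex.exp ((c / b : ℝ) * U l z)‖ ^ b = exp (U l z).re ^ c := fun z => by
    rw [Complex.norm_exp, Complex.re_ofReal_mul, ← exp_mul, ← exp_mul]; congr 1; field_simp
  have d : DifferentiableOn ℂ (U l) (ball 0 (δ + r)) := fun z hz =>
    (hδ (ball_subset_closedBall hz)).differentiableAt.differentiableWithinAt
  have := ext b0.le r0.le hγ hr hW H (h := fun z => Complex.exp ((c / b : ℝ) * U l z))
    (lt_add_of_pos_left r δ0) (d.const_mul _).cexp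
  simp only [n, h3 _ (nr r0.le _)] at this
  have cu : Continuous fun t => U l (γ t) :=
    h1.continuousOn.comp_continuous hγ fun t => mem_closedBall_zero_iff.2 (hr t)
  refine le_trans (intervalIntegral.integral_mono zero_le_one (Continuous.intervalIntegrable
    ((((P.continuous.comp hγ).norm.rpow_const fun _ => .inr c0.le)).mul hW) _ _)
    (Continuous.intervalIntegrable ((Continuous.rpow_const (Complex.continuous_re.comp cu).rexp
      fun _ => .inr c0.le).mul hW) _ _)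
    fun t => ?_) this
  exact mul_le_mul_of_nonneg_right (rpow_le_rpow (norm_nonneg _) (h2 _ (hr t)) c0.le) (W0 t)

end Pool.Agent.H.MP_140d1b_an
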