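import Pool.Agent.H.MP_140d1b_an.A

set_option autoImplicit false
set_option maxHeartbeats 400000

namespace Pool.Agent.H.MP_140d1b_an
open Finset Filter Topology Real MeasureTheory Metric Polynomial Pool.Agent.H.MP_f44585_an
  Pool.Agent.H.MP_0447a2_lc Pool.Agent.H.MP_034cab_an

variable {r : ℝ} {h φ : ℂ → ℂ} {a s u g : ℕ → ℂ}

lemma tay (hh : DifferentiableOn ℂ h (ball 0 1)) : ∃ a, Rd a ∧ ∀ z, ‖z‖ < 1 → PS a z = h z := by
  have s : ∀ z : ℂ, ‖z‖ < 1 →
      HasSum (fun n => (n.factorial : ℂ)⁻¹ * iteratedDeriv n h 0 * z ^ n) (h z) := fun z hz => by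
    refine (Complex.hasSum_taylorSeries_on_ball hh (mem_ball_zero_iff.2 hz)).congr_fun ?_
    intro n; simp; ring
  exact ⟨_, fun r r0 r1 => by
    simpa [abs_of_nonneg r0] using (s r (by simpa [abs_of_nonneg r0])).summable.norm,
    fun z hz => (s z hz).tsum_eq⟩

lemma Rd.fin {N : ℕ} (h : ∀ k ≥ N, a k = 0) : Rd a := fun _ _ _ =>
  summable_of_ne_finset_zero (s := range N) fun n hn => by simp [h n (by simpa using hn)]

lemma ct (h : Rd a) (r0 : 0 ≤ r) (r1 : r < 1) : Continuous fun t => PS a (r * ee t) := by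
  simpa [sqrt_sq r0] using h.cont (sq_nonneg r) (by nlinarith)

lemma par (h : Rd a) (r0 : 0 ≤ r) (r1 : r < 1) :
    HasSum (fun n => (r ^ 2) ^ n * ‖a n‖ ^ 2) (∫ t in (0 : ℝ)..1, ‖PS a (r * ee t)‖ ^ 2) := by
  have e := h.sum (z := r) (by simpa [abs_of_nonneg r0])
  have := pars0 e e
  simp only [← ps_sc, Complex.mul_conj'] at this
  norm_cast at this
  rw [intervalIntegral.integral_ofReal, Complex.hasSum_ofReal] at this
  refine this.congr_fun fun n => ?_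
  simp [mul_pow, ← pow_mul, mul_comm, abs_of_nonneg r0]

lemma contr (hs : Rd s) (b : ∀ z, ‖z‖ < 1 → ‖PS s z‖ ≤ 1) (u : ℕ → ℂ) (n : ℕ) :
    ∑ k ∈ range n, ‖CP s u k‖ ^ 2 ≤ ∑ k ∈ range n, ‖u k‖ ^ 2 := by
  let v : ℕ → ℂ := fun k => if k < n then u k else 0
  have hv : Rd v := Rd.fin (N := n) fun k hk => if_neg hk.not_gt
  have c : Continuous fun r : ℝ => ∑ k ∈ range n, (r ^ 2) ^ k * ‖CP s u k‖ ^ 2 := by fun_prop
  have := (c.tendsto 1).mono_left (nhdsWithin_le_nhds (s := Set.Iio 1))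
  simp only [one_pow, one_mul] at this
  refine le_of_tendsto this (Eventually.mono (Ioo_mem_nhdsLT one_pos) fun r hr => ?_)
  have n1 : ∀ t, ‖r * ee t‖ < 1 := fun t => (nr hr.1.le t).trans_lt hr.2
  calc _ = ∑ k ∈ range n, (r ^ 2) ^ k * ‖CP s v k‖ ^ 2 := sum_congr rfl fun k hk => by
        congr 3
        refine sum_congr rfl fun x hx => ?_
        have := mem_antidiagonal.1 hx
        simp only [v, if_pos (show x.2 < n by have := mem_range.1 hk; omega)]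
    _ ≤ _ := sum_le_hasSum _ (fun _ _ => by positivity) (par (hs.cp hv) hr.1.le hr.2)
    _ ≤ ∫ t in (0 : ℝ)..1, ‖PS v (r * ee t)‖ ^ 2 := intervalIntegral.integral_mono zero_le_one
        (((ct (hs.cp hv) hr.1.le hr.2).norm.pow 2).intervalIntegrable _ _)
        (((ct hv hr.1.le hr.2).norm.pow 2).intervalIntegrable _ _) fun t => by
          simp only [hs.mul hv (n1 t), norm_mul]
          gcongr
          exact mul_le_of_le_one_left (norm_nonneg _) (b _ (n1 t))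
    _ = ∑ k ∈ range n, (r ^ 2) ^ k * ‖v k‖ ^ 2 := (par hv hr.1.le hr.2).unique
        (hasSum_sum_of_ne_finset_zero fun k hk => by simp [v, show ¬k < n by simpa using hk])
    _ ≤ _ := sum_le_sum fun k hk => by
        simp only [v, if_pos (mem_range.1 hk)]
        exact mul_le_of_le_one_left (by positivity) (pow_le_one₀ (by positivity)
          (pow_le_one₀ hr.1.le hr.2.le))

lemma shift (h : Rd fun k => a (k + 1)) : Rd a ∧ ∀ z, ‖z‖ < 1 →
    PS a z = a 0 + z * PS (fun k => a (k + 1)) z := by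
  have e : Rd a := fun r r0 r1 => (summable_nat_add_iff 1).1 (((h r r0 r1).mul_right r).congr
    fun n => by ring)
  refine ⟨e, fun z hz => ?_⟩
  rw [PS, (e.sum hz).of_norm.tsum_eq_zero_add, PS, ← tsum_mul_left]
  simp only [pow_zero, mul_one, add_right_inj]
  exact tsum_congr fun n => by ring

lemma rog (hs : Rd s) (b : ∀ z, ‖z‖ < 1 → ‖PS s z‖ ≤ 1) (N : ℕ) : ∀ a : ℕ → ℂ, (∀ k ≥ N, a k = 0) →
    ∃ g, Rd g ∧ (∀ z, ‖z‖ < 1 → PS g z = PS a (z * PS s z)) ∧ g 0 = a 0 ∧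
      ∀ n, ∑ k ∈ range n, ‖g (k + 1)‖ ^ 2 ≤ ∑ k ∈ range n, ‖a (k + 1)‖ ^ 2 := by
  induction N with
  | zero => exact fun a h => ⟨a, Rd.fin h, by simp [PS, h], rfl, fun _ => le_rfl⟩
  | succ N ih =>
    intro a h
    have h' : ∀ k ≥ N, a (k + 1) = 0 := fun k hk => h _ (by omega)
    obtain ⟨g, g1, g2, g3, g4⟩ := ih _ h'
    obtain ⟨G, G0, G1⟩ : ∃ G : ℕ → ℂ, G 0 = a 0 ∧ (fun k => G (k + 1)) = CP s g :=
      ⟨fun k => Nat.casesOn k (a 0) (CP s g), rfl, rfl⟩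
    obtain ⟨e1, e2⟩ := shift (a := G) (G1 ▸ hs.cp g1)
    refine ⟨G, e1, fun z hz => ?_, G0, fun n => le_of_eq_of_le (by rw [← G1])
      ((contr hs b g n).trans ?_)⟩
    · rw [e2 z hz, G0, G1, (shift (Rd.fin h')).2 _ (by
        rw [norm_mul]; exact (mul_le_of_le_one_right (norm_nonneg _) (b z hz)).trans_lt hz), ← g2 z hz,
        mul_assoc, ← hs.mul g1 hz]
    · rcases n with _ | n
      · simp
      · rw [sum_range_succ', sum_range_succ' _ n, g3]; linarith [g4 n]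

lemma abel {ω x y : ℕ → ℝ} {X Y : ℝ} (m : Antitone ω) (ω0 : ∀ n, 0 ≤ ω n)
    (h : ∀ n, ∑ k ∈ range n, x k ≤ ∑ k ∈ range n, y k) (hx : HasSum (fun n => ω n * x n) X)
    (hy : HasSum (fun n => ω n * y n) Y) : X ≤ Y := by
  have : ∀ n, ω n * (∑ k ∈ range n, y k - ∑ k ∈ range n, x k) ≤
      ∑ k ∈ range n, ω k * y k - ∑ k ∈ range n, ω k * x k := fun n => by
    induction n with
    | zero => simp
    | succ n ih =>
      have := mul_le_mul_of_nonneg_right (m n.le_succ) (sub_nonneg.2 (h (n + 1)))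
      simp only [sum_range_succ] at this ⊢
      linarith
  exact le_of_tendsto_of_tendsto' hx.tendsto_sum_nat hy.tendsto_sum_nat fun n => by
    linarith [this n, mul_nonneg (ω0 n) (sub_nonneg.2 (h n))]

structure Sch (φ : ℂ → ℂ) : Prop where
  d : DifferentiableOn ℂ φ (ball 0 1)
  m : Set.MapsTo φ (ball 0 1) (ball 0 1)
  z : φ 0 = 0

lemma Sch.le (h : Sch φ) {z : ℂ} (hz : ‖z‖ < 1) : ‖φ z‖ ≤ ‖z‖ :=
  Complex.norm_le_norm_of_mapsTo_ball h.d (h.m.mono_right ball_subset_closedBall) h.z hz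

lemma Sch.rog (h : Sch φ) {N : ℕ} (ha : ∀ k ≥ N, a k = 0) :
    ∃ g, Rd g ∧ (∀ z, ‖z‖ < 1 → PS g z = PS a (φ z)) ∧ g 0 = a 0 ∧
      ∀ n, ∑ k ∈ range n, ‖g (k + 1)‖ ^ 2 ≤ ∑ k ∈ range n, ‖a (k + 1)‖ ^ 2 := by
  obtain ⟨s, s1, s2⟩ := tay ((Complex.differentiableOn_dslope (ball_mem_nhds 0 one_pos)).2 h.d)
  obtain ⟨g, g1, g2, g3⟩ := MP_140d1b_an.rog s1 (fun z hz => by
    simpa [s2 z hz] using Complex.norm_dslope_le_div_of_mapsTo_ball h.d
      (h.z.symm ▸ h.m.mono_right ball_subset_closedBall) (mem_ball_zero_iff.2 hz)) N a ha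
  refine ⟨g, g1, fun z hz => ?_, g3⟩
  rw [g2 z hz, s2 z hz]
  simpa [h.z] using congrArg (PS a) (sub_smul_dslope φ 0 z)

lemma PS_coeff (P : ℂ[X]) (z : ℂ) : PS P.coeff z = P.eval z := by
  rw [PS, eval_eq_sum_range, tsum_eq_sum (s := range (P.natDegree + 1)) fun k hk => by
    rw [coeff_eq_zero_of_natDegree_lt (by simpa using hk), zero_mul]]

lemma lit (h : Sch φ) (r0 : 0 ≤ r) (r1 : r < 1) : A 2 r (fun t => φ (r * ee t)) 1 := fun P => by
  have z : ∀ k ≥ P.natDegree + 1, P.coeff k = 0 := fun k => coeff_eq_zero_of_natDegree_lt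
  obtain ⟨g, g1, g2, g3, g4⟩ := h.rog z
  have := abel (fun _ _ e => pow_le_pow_of_le_one (sq_nonneg r) (pow_le_one₀ r0 r1.le) e)
    (fun _ => by positivity) (fun n => ?_) (par g1 r0 r1) (par (Rd.fin z) r0 r1)
  · simpa [g2 _ ((nr r0 _).trans_lt r1), PS_coeff] using this
  rcases n with _ | n
  · simp
  · rw [sum_range_succ', sum_range_succ' _ n, g3]; linarith [g4 n]

lemma gol (h : Sch φ) (r0 : 0 ≤ r) (r1 : r ≤ 1 / 2) :
    A 2 r (fun t => φ (r * ee t)) fun t => ‖deriv φ (r * ee t)‖ ^ (2 : ℝ) := fun P => by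
  have r2 : r < 1 := by linarith
  let a : ℕ → ℂ := fun k => Nat.casesOn k 0 fun k => P.coeff k / (k + 1)
  have z : ∀ k ≥ P.natDegree + 2, a k = 0 := fun k hk => by
    obtain ⟨k, rfl⟩ := Nat.exists_eq_add_of_le' (show 1 ≤ k by omega)
    simp [a, coeff_eq_zero_of_natDegree_lt (show P.natDegree < k by omega)]
  have e : DD a = P.coeff := funext fun k => mul_div_cancel₀ _ (by exact_mod_cast k.succ_ne_zero)
  obtain ⟨g, g1, g2, -, g4⟩ := h.rog z
  have w : ∀ {g : ℕ → ℂ}, Rd g → HasSum (fun n : ℕ => ((r ^ 2) ^ n * (n + 1) ^ 2) * ‖g (n + 1)‖ ^ 2)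
      (∫ t in (0 : ℝ)..1, ‖PS (DD g) (r * ee t)‖ ^ 2) := fun hg => (par hg.dd r0 r2).congr_fun fun n => by
    rw [DD, norm_mul, ← Nat.cast_succ (R := ℂ), Complex.norm_natCast]; push_cast; ring
  have := abel (antitone_nat_of_succ_le fun n => ?_) (fun _ => by positivity) g4 (w g1) (w (Rd.fin z))
  · have d : ∀ z, ‖z‖ < 1 → PS (DD g) z = P.eval (φ z) * deriv φ z := fun x hx => by
      have b := isOpen_ball.mem_nhds (mem_ball_zero_iff.2 hx)
      refine (g1.der hx).unique (.congr_of_eventuallyEq (f := PS a ∘ φ) ?_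
        (Eventually.mono b fun y hy => g2 y (mem_ball_zero_iff.1 hy)))
      rw [← PS_coeff, ← e]
      exact ((Rd.fin z).der ((h.le hx).trans_lt hx)).comp x (h.d.differentiableAt b).hasDerivAt
    simpa [d _ ((nr r0 _).trans_lt r2), e, PS_coeff, mul_pow] using this
  rw [pow_succ, mul_assoc]
  refine mul_le_mul_of_nonneg_left ?_ (by positivity)
  have : (0 : ℝ) ≤ n := n.cast_nonneg
  rw [← mul_pow]
  push_cast
  gcongr
  nlinarith

end Pool.Agent.H.MP_140d1b_an
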